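import Pool.Agent.Helper60.BM.Conv

/-!
# Boolean functions which need length `c N log N` on average

`Prog N S`: deterministic branching programs with `S` states on `N` bits. `P.Run I s l z`: on the input `I`, started in
the state `s`, the program queries the bits in the list `l` and ends with the result `z`. `PProg N q g`: deterministic
branching programs with a pushdown store, `q` states and `g` stack symbols; `P.Run I s st l z`: the same, with the stack
`st` at the start.
-/

set_option autoImplicit false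

namespace Pool.Agent.Results.MP_4e849b_lc.AverageNLogN

open Pool.Agent.Helper60.BM

theorem result : ∃ c : ℝ, 0 < c ∧ ∀ N₀ : ℕ, ∃ N ≥ N₀, ∃ f : (Fin N → Bool) → Bool,
    -- (1) short computations
    (∀ (S : ℕ) (P : Prog N S), (S : ℝ) ≤ 2 ^ (N : ℝ) ^ c →
      (Nat.card {I // ∃ l, P.Run I P.start l (f I) ∧ (l.length : ℝ) ≤ c * N * Real.logb 2 N} : ℝ) ≤
        (1 / 2 + (N : ℝ) ^ (-c)) * 2 ^ N) ∧
    -- (2) computations of any length
    (∀ (S : ℕ) (P : Prog N S), (S : ℝ) ≤ 2 ^ (N : ℝ) ^ c →
      (Nat.card {I // ∃ l, P.Run I P.start l (f I) ∧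
        (N : ℝ) ^ (1 - c) ≤ Nat.card {x // (l.count x : ℝ) ≤ c * Real.logb 2 N}} : ℝ) ≤
          (1 / 2 + (N : ℝ) ^ (-c)) * 2 ^ N) ∧
    -- (3) a deterministic pushdown program
    ∃ P : PProg N (N ^ 3) N, ∀ I, ∃ l, P.Run I P.start [] l (f I) ∧
      (Nat.card {x // x ∈ l} : ℝ) ≤ (N : ℝ) ^ (1 - c) :=
  average

end Pool.Agent.Results.MP_4e849b_lc.AverageNLogN
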