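import Pool.Agent.Helper17.TXC.Thm

/-!
# Deterministic multihead pushdown automata with nested turns of bounded rank

An excursion of rank `0` is a part of the computation in which the height of the stack is the same
at both ends, not smaller in between and larger by at most `h`; an excursion of rank `r + 1` is such
a part (without the bound) which is cut into `t` pieces, in each of which all falls or all rises of
the height lie in excursions of rank `r`. For every `r`, a two-way multihead deterministic pushdown
automaton whose stack height is cut into `t` such pieces for rank `r` is simulated, uniformly and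
for all `t`, `h` at once, in space `O(S (1 + log t / log S))`, `S = log (n + t) + h`. In particular
deterministic multihead pushdown automata with nested turns of bounded rank, polylogarithmically
many at each level (excursions of height `O(log n)` are not counted), accept exactly the languages
of two-way multihead deterministic finite automata (logarithmic space), and those which make
polynomially many moves are simulated in space `O(log ^ 2 n / log log n)`.
-/

namespace Pool.Agent.Results.MP_4e849b_lc.NestedTurns

open Pool.Agent.Helper17.TXC

/-- **Main theorem.** For every two-way `k`-head deterministic pushdown automaton and every `r`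
there are a constant `C` and a two-way multihead deterministic finite automaton such that, for all
words `u`: if the finite automaton accepts `u` followed by `m` blanks, then the pushdown automaton
accepts `u`; if the pushdown automaton accepts `u` within `T ≥ 1` moves, then the finite automaton
accepts `u` followed by `m` blanks for every `m ≥ exp (C S (1 + log T / log S))`, where
`S = log (|u| + T + 16)`; likewise, with `t` for `T` and `S = log (|u| + t + 16) + h`, if the
pushdown automaton accepts `u` with `t ≥ 1` pieces of rank `r` (and at most `h` for rank `0`). If
each accepted word `u` is accepted with such pieces, `t ≤ log (|u| + 16) ^ c` and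
`h ≤ c * log (|u| + 16)`, then a two-way multihead deterministic finite automaton accepts exactly
the same words (without blanks). -/
theorem result {α Q Γ : Type} [Fintype α] [Fintype Q] [Fintype Γ] {k : ℕ}
    (δ : PDTrans α Q Γ k) (q₀ : Q) (F : Set Q) (r : ℕ) :
    (∃ (C : ℝ) (k' : ℕ) (P : Type) (_ : Fintype P) (η : FDTrans (Option α) P k') (p₀ : P)
      (G : Set P),
      (∀ (u : List α) (m : ℕ), FDAccepts η p₀ G (padW u m) → ∃ T, AcceptsIn δ q₀ F T u) ∧
      (∀ (u : List α) (T m : ℕ) (S : ℝ), 1 ≤ T → S = Real.log (u.length + T + 16) →
        Real.exp (C * S * (1 + Real.log T / Real.log S)) ≤ m →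
        AcceptsIn δ q₀ F T u → FDAccepts η p₀ G (padW u m)) ∧
      ∀ (u : List α) (t h m : ℕ) (S : ℝ), 1 ≤ t → S = Real.log (u.length + t + 16) + h →
        Real.exp (C * S * (1 + Real.log t / Real.log S)) ≤ m →
        AcceptsNested δ q₀ F r h t u → FDAccepts η p₀ G (padW u m)) ∧
    ∀ c : ℕ,
      (∀ u : List α, (∃ T, AcceptsIn δ q₀ F T u) →
        ∃ t h : ℕ, (t : ℝ) ≤ Real.log (u.length + 16) ^ c ∧
          (h : ℝ) ≤ c * Real.log (u.length + 16) ∧ AcceptsNested δ q₀ F r h t u) →
      ∃ (k' : ℕ) (P : Type) (_ : Fintype P) (η : FDTrans α P k') (p₀ : P) (G : Set P),
        ∀ u : List α, FDAccepts η p₀ G u ↔ ∃ T, AcceptsIn δ q₀ F T u :=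
  main δ q₀ F r

end Pool.Agent.Results.MP_4e849b_lc.NestedTurns
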