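import Pool.Agent.Helper60.BM.Conv

/-!
Boolean functions of `N` bits which have small deterministic branching programs with a pushdown store, but no
nondeterministic branching programs of length `r N` and size `2 ^ (N ^ e)`, `e = 2 ^ (-C r)`.

`NProg N S`: nondeterministic branching programs with `S` states on `N` bits. `P.Run I s l z`: on the input `I`, some
computation started in the state `s` queries the bits in the list `l` and ends with the result `z`. `PProg N q g`:
deterministic branching programs with a pushdown store, `q` states and `g` stack symbols; `P.Run I s st l z`: started in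
the state `s` with the stack `st` the program queries the bits in the list `l` and ends with the result `z`.
-/

set_option autoImplicit false

namespace Pool.Agent.Results.MP_4e849b_lc.NondeterministicLength

open Pool.Agent.Helper60.BM

theorem result (δ : ℝ) (hδ : 0 < δ) :
    ∃ C : ℕ, ∀ (r : ℕ) (e : ℝ), 1 ≤ r → e = 1 / 2 ^ (C * r) → ∀ n : ℕ, 2 ^ 2 ^ (C * r) ≤ n →
    ∃ N : ℕ, n ≤ N ∧ N ≤ n ^ 2 ∧ ∃ f : (Fin N → Bool) → Bool,
      (∀ (S : ℕ) (P : NProg N S), (S : ℝ) ≤ 2 ^ ((N : ℝ) ^ e) →
        (∀ I l z, P.Run I P.start l z → z = f I) →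
        -- (1) results of computations of length at most `r N`
        (Nat.card {I // ∃ l z, P.Run I P.start l z ∧ l.length ≤ r * N} : ℝ) ≤
          (N : ℝ) ^ (-e) * 2 ^ N ∧
        -- (2) results of computations of any length which query many bits at most `r` times
        (Nat.card {I // (∃ l z, P.Run I P.start l z) ∧ ∀ l z, P.Run I P.start l z →
            (1 / 2 + δ) * N ≤ Nat.card {x // l.count x ≤ r}} : ℝ) ≤ (N : ℝ) ^ (-e) * 2 ^ N) ∧
      -- (3) both values are frequent
      (∀ y, (1 / 2 - (N : ℝ) ^ (-e)) * 2 ^ N ≤ Nat.card {I // f I = y}) ∧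
      -- (4) a deterministic pushdown program
      ∃ P : PProg N (N ^ 3) N, ∀ I, ∃ l, P.Run I P.start [] l (f I) ∧
        (Nat.card {x // x ∈ l} : ℝ) ≤ (N : ℝ) ^ (1 - e) :=
  family δ hδ

end Pool.Agent.Results.MP_4e849b_lc.NondeterministicLength
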