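import Pool.Agent.Helper5.TreeExp.Upper
import Pool.Agent.Helper5.TreeExp.Lower
import Pool.Agent.Helper5.TreeExp.Bridge

/-!
Deterministic branching programs for tree evaluation on complete `d`-ary trees with `h` levels:
with `b = log₂ k` and `l = log₂ (2 b)`, the number of states needed is at least
`c b ^ (-d) k ^ (2 d - d ^ (3 - h))` and at most `k ^ (2 d) 2 ^ (C (h l + √(h b l)))`.
-/

set_option autoImplicit false

namespace Pool.Agent.Results.MP_4e849b_lc.TreeExponent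

open Pool.Agent.Helper5.TreeExp.Model

theorem result (d : ℕ) (hd : 2 ≤ d) :
    (∃ c : ℝ, 0 < c ∧ ∀ h k : ℕ, 3 ≤ h → 2 ≤ k → ∀ (N : ℕ) (B : BP d k N), Solves h B →
      c * (k : ℝ) ^ (2 * (d : ℝ) - (d : ℝ) ^ (3 - (h : ℝ))) ≤
        (Real.logb 2 k) ^ d * (N : ℝ)) ∧
    (∃ C : ℝ, ∀ h k : ℕ, 3 ≤ h → 2 ≤ k → ∃ (N : ℕ) (B : BP d k N), Solves h B ∧
      (N : ℝ) ≤ (k : ℝ) ^ (2 * d) *
        (2 : ℝ) ^ (C * (h * Real.logb 2 (2 * Real.logb 2 k) +
          Real.sqrt (h * Real.logb 2 k * Real.logb 2 (2 * Real.logb 2 k))))) := by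
  constructor
  · obtain ⟨c, hc, h1⟩ := Pool.Agent.Helper5.TreeExp.lower d hd
    refine ⟨c, hc, fun h k hh hk N B hB => ?_⟩
    obtain ⟨B', hB'⟩ := Pool.Agent.Helper5.TreeExp.Bridge.down (by omega) B hB
    exact h1 h k hh hk N B' hB'
  · obtain ⟨C, hC⟩ := Pool.Agent.Helper5.TreeExp.upper d hd
    refine ⟨C, fun h k hh hk => ?_⟩
    obtain ⟨N, B', hB', hN⟩ := hC h k (by omega) hk
    obtain ⟨B, hB⟩ := Pool.Agent.Helper5.TreeExp.Bridge.up B' hB'
    exact ⟨N, B, hB, hN⟩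

end Pool.Agent.Results.MP_4e849b_lc.TreeExponent
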